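import Pool.Agent.Lib.MP_1c09d5_co.Main

set_option autoImplicit false

namespace Pool.Agent.Results.MP_1c09d5_co.HarborthPrime

open Finset Pool.Agent.Lib.MP_1c09d5_co

/-- For every prime p at least 11, the largest size of a subset A of ZMod p × ZMod p in which no
p distinct elements have sum zero is 2 p - 2. -/
theorem result (p : ℕ) (hp : p.Prime) (h11 : 11 ≤ p) :
    IsGreatest {n : ℕ | ∃ A : Finset (ZMod p × ZMod p), A.card = n ∧
      ∀ T : Finset (ZMod p × ZMod p), T ⊆ A → T.card = p → ∑ x ∈ T, x ≠ 0} (2 * p - 2) := by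
  classical
  haveI : Fact p.Prime := ⟨hp⟩
  constructor
  · refine ⟨({0, 1} : Finset (ZMod p)) ×ˢ (univ.erase 0), ?_, ?_⟩
    · rw [card_product, card_pair zero_ne_one, card_erase_of_mem (mem_univ _), card_univ, ZMod.card]
      omega
    · intro T hT hc hs
      have hfib : ∀ j, #(fib T j) ≤ p - 1 := by
        intro j
        have : fib T j ⊆ univ.erase 0 := fun y hy =>
          (mem_product.mp (hT (by simpa [fib] using hy : (j, y) ∈ T))).2
        have h2 := card_le_card this
        rwa [card_erase_of_mem (mem_univ _), card_univ, ZMod.card] at h2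
      have hz : ∀ j, j ∉ ({0, 1} : Finset (ZMod p)) → fib T j = ∅ := by
        intro j hj
        rw [eq_empty_iff_forall_notMem]
        intro y hy
        exact hj (mem_product.mp (hT (by simpa [fib] using hy : (j, y) ∈ T))).1
      have h1 : #T = #(fib T 0) + #(fib T 1) := by
        rw [card_fib, ← sum_pair (f := fun j => #(fib T j)) zero_ne_one]
        exact (sum_subset (subset_univ _) fun j _ hj => by rw [hz j hj, card_empty]).symm
      have h2 : ∑ x ∈ T, x.1 = (#(fib T 1) : ZMod p) := by
        rw [sum_fib T fun x => x.1, ← sum_subset (subset_univ ({0, 1} : Finset (ZMod p)))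
          fun j _ hj => by rw [hz j hj, sum_empty], sum_pair zero_ne_one]
        simp
      rw [← Prod.fst_sum, hs, Prod.fst_zero, eq_comm, ZMod.natCast_eq_zero_iff] at h2
      have h3 := hfib 0
      have h4 := hfib 1
      have := Nat.le_of_dvd (by omega) h2
      omega
  · rintro n ⟨A, rfl, hA⟩
    by_contra hcon
    obtain ⟨S, hS, hc⟩ := exists_subset_card_eq (s := A) (n := 2 * p - 1) (by omega)
    obtain ⟨T, hT, hTc, hTs⟩ := upper p h11 S (by omega)
    exact hA T (hT.trans hS) hTc hTs

end Pool.Agent.Results.MP_1c09d5_co.HarborthPrime
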